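import Pool.Agent.Lib.MP_50b5e1_nt.Two

/-!
# R/RA: elements of the upper block which are divisible by high powers of small primes
-/

set_option autoImplicit false

namespace Pool.Agent.Lib.MP_50b5e1_nt

/-- A block of length `k` contains a multiple of the full power of `p` in the binomial coefficient. -/
theorem carry_elem {p m k : ℕ} (hp : p.Prime) (hk : 1 ≤ k) :
    ∃ h, 1 ≤ h ∧ h ≤ k ∧ p ^ ((m + k).choose k).factorization p ∣ m + h := by
  classical
  have e := Nat.factorization_choose' (p := p) (n := m) (k := k) (b := Nat.log p (m + k) + 1) hp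
    (Nat.lt_succ_self _)
  obtain ⟨T, hT⟩ : ∃ T, T = (Finset.Ico 1 (Nat.log p (m + k) + 1)).filter
    (fun i => p ^ i ≤ k % p ^ i + m % p ^ i) := ⟨_, rfl⟩
  rw [← hT] at e
  rcases T.eq_empty_or_nonempty with h0 | hne
  · refine ⟨1, le_rfl, hk, ?_⟩
    rw [e, h0, Finset.card_empty, pow_zero]
    exact one_dvd _
  · obtain ⟨M, hM⟩ : ∃ M, M = T.max' hne := ⟨_, rfl⟩
    have hMT : M ∈ T := by
      rw [hM]
      exact T.max'_mem hne
    have hcard : T.card ≤ M := by
      have h1 : T ⊆ Finset.Icc 1 M := by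
        intro i hi
        rw [Finset.mem_Icc]
        refine ⟨?_, ?_⟩
        · rw [hT, Finset.mem_filter, Finset.mem_Ico] at hi
          exact hi.1.1
        · rw [hM]
          exact T.le_max' i hi
      simpa using Finset.card_le_card h1
    have h1 : p ^ M ≤ k % p ^ M + m % p ^ M := by
      rw [hT, Finset.mem_filter] at hMT
      exact hMT.2
    have hpos : 0 < p ^ M := pow_pos hp.pos M
    have h2 := Nat.mod_lt m hpos
    have h3 := Nat.mod_le k (p ^ M)
    refine ⟨p ^ M - m % p ^ M, by omega, by omega, ?_⟩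
    rw [e]
    refine (pow_dvd_pow p hcard).trans ⟨m / p ^ M + 1, ?_⟩
    have h4 := Nat.div_add_mod m (p ^ M)
    have h5 : p ^ M * (m / p ^ M + 1) = p ^ M * (m / p ^ M) + p ^ M := by ring
    rw [h5]
    omega

/-- Legendre's formula for the two factorials. -/
theorem val_lower {m₁ k₁ m₂ k₂ p : ℕ} (hp : p.Prime) (h : IsSol m₁ k₁ m₂ k₂) :
    ((k₁ : ℝ) - k₂) * (Real.log p / (p - 1)) - Real.log k₁ - Real.log p ≤
      ((m₂ + k₂).choose k₂).factorization p * Real.log p := by
  obtain ⟨h1, h2, h3, h4⟩ := h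
  have hf : Fact p.Prime := ⟨hp⟩
  have hp2 := hp.two_le
  have hv1 := sub_one_mul_padicValNat_factorial (p := p) k₁
  have hv2 := sub_one_mul_padicValNat_factorial (p := p) k₂
  have hd1 : (Nat.digits p k₁).sum ≤ (Nat.log p k₁ + 1) * (p - 1) := by
    rw [← Nat.length_digits p k₁ (by omega) (by omega)]
    have := List.sum_le_card_nsmul (Nat.digits p k₁) (p - 1) (fun x hx => by
      have := Nat.digits_lt_base (by omega : 1 < p) hx
      omega)
    simpa using this
  have hd2 := Nat.digit_sum_le p k₁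
  have e1 : padicValNat p (blockProd m₁ k₁) =
      padicValNat p (k₁.factorial) + padicValNat p ((m₁ + k₁).choose k₁) := by
    rw [blockProd_eq, padicValNat.mul (Nat.factorial_ne_zero _)
      (Nat.choose_pos (by omega)).ne']
  have e2 : padicValNat p (blockProd m₂ k₂) =
      padicValNat p (k₂.factorial) + padicValNat p ((m₂ + k₂).choose k₂) := by
    rw [blockProd_eq, padicValNat.mul (Nat.factorial_ne_zero _)
      (Nat.choose_pos (by omega)).ne']
  rw [h4] at e1
  rw [Nat.factorization_def _ hp]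
  obtain ⟨v, hv⟩ : ∃ v, v = padicValNat p ((m₂ + k₂).choose k₂) := ⟨_, rfl⟩
  rw [← hv] at e2 ⊢
  have h5 : padicValNat p (k₁.factorial) ≤ padicValNat p (k₂.factorial) + v := by omega
  have h6 : k₁ ≤ k₂ + (p - 1) * v + (Nat.log p k₁ + 1) * (p - 1) := by
    have h7 := Nat.mul_le_mul_left (p - 1) h5
    rw [mul_add] at h7
    omega
  have hp1 : (0 : ℝ) < (p : ℝ) - 1 := by
    have : (2 : ℝ) ≤ p := by exact_mod_cast hp2
    linarith
  have hlogp : 0 < Real.log p := Real.log_pos (by linarith)
  have h7 : (k₁ : ℝ) ≤ k₂ + (p - 1) * v + (Nat.log p k₁ + 1) * (p - 1) := by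
    have h8 : ((k₁ : ℕ) : ℝ) ≤ ((k₂ + (p - 1) * v + (Nat.log p k₁ + 1) * (p - 1) : ℕ) : ℝ) := by
      exact_mod_cast h6
    push_cast [Nat.cast_sub (by omega : 1 ≤ p)] at h8
    exact h8
  have h8 : (Nat.log p k₁ : ℝ) * Real.log p ≤ Real.log k₁ := by
    have h9 : p ^ Nat.log p k₁ ≤ k₁ := Nat.pow_log_le_self p (by omega)
    have h10 : ((p : ℝ)) ^ Nat.log p k₁ ≤ k₁ := by exact_mod_cast h9
    have h11 := Real.log_le_log (by positivity) h10
    rw [Real.log_pow] at h11
    exact h11
  have h9 : ((k₁ : ℝ) - k₂) * (Real.log p / (p - 1)) ≤ (v + Nat.log p k₁ + 1) * Real.log p := by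
    have h10 : (k₁ : ℝ) - k₂ ≤ (v + Nat.log p k₁ + 1) * (p - 1) := by linarith
    have h11 : 0 ≤ Real.log p / ((p : ℝ) - 1) := by positivity
    calc ((k₁ : ℝ) - k₂) * (Real.log p / (p - 1))
        ≤ ((v + Nat.log p k₁ + 1) * (p - 1)) * (Real.log p / (p - 1)) :=
          mul_le_mul_of_nonneg_right h10 h11
      _ = (v + Nat.log p k₁ + 1) * Real.log p := by
          field_simp
  nlinarith [h9, h8]

/-- The sum of `log p / (p - 1)` over a set of primes is large. -/
theorem prime_sum_large (N : ℕ) (hN : 1 ≤ N) :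
    Real.log N - 1 ≤ ∑ p ∈ (N.factorial).primeFactors, Real.log p / ((p : ℝ) - 1) := by
  have hN0 : (0 : ℝ) < N := by exact_mod_cast hN
  have h1 : (N : ℝ) * (Real.log N - 1) ≤ Real.log (N.factorial) := by
    have h2 := Real.pow_div_factorial_le_exp (N : ℝ) hN0.le N
    have h3 : (0 : ℝ) < N.factorial := by exact_mod_cast N.factorial_pos
    have h4 := Real.log_le_log (by positivity) h2
    rw [Real.log_exp, Real.log_div (by positivity) h3.ne', Real.log_pow] at h4
    linarith
  have h2 : Real.log (N.factorial) =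
      ∑ p ∈ (N.factorial).primeFactors, ((N.factorial).factorization p : ℝ) * Real.log p := by
    conv_lhs => rw [← Nat.prod_factorization_pow_eq_self (Nat.factorial_ne_zero N)]
    rw [Finsupp.prod, Nat.support_factorization, Nat.cast_prod, Real.log_prod]
    · refine Finset.sum_congr rfl fun p _ => ?_
      rw [Nat.cast_pow, Real.log_pow]
    · intro p hp
      have := (Nat.prime_of_mem_primeFactors hp).pos
      positivity
  have h3 : Real.log (N.factorial) ≤
      N * ∑ p ∈ (N.factorial).primeFactors, Real.log p / ((p : ℝ) - 1) := by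
    rw [h2, Finset.mul_sum]
    refine Finset.sum_le_sum fun p hp => ?_
    have hpp := Nat.prime_of_mem_primeFactors hp
    have hf : Fact p.Prime := ⟨hpp⟩
    have hp2 := hpp.two_le
    have hv := sub_one_mul_padicValNat_factorial (p := p) N
    rw [Nat.factorization_def _ hpp]
    have h4 : (p - 1) * padicValNat p (N.factorial) ≤ N := by omega
    have hp1 : (0 : ℝ) < (p : ℝ) - 1 := by
      have : (2 : ℝ) ≤ p := by exact_mod_cast hp2
      linarith
    have h5 : ((p : ℝ) - 1) * (padicValNat p (N.factorial) : ℝ) ≤ N := by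
      have h6 : (((p - 1) * padicValNat p (N.factorial) : ℕ) : ℝ) ≤ (N : ℝ) := by exact_mod_cast h4
      push_cast [Nat.cast_sub (by omega : 1 ≤ p)] at h6
      exact h6
    have hlogp : 0 ≤ Real.log p := Real.log_nonneg (by
      have : (2 : ℝ) ≤ p := by exact_mod_cast hp2
      linarith)
    have h6 : (padicValNat p (N.factorial) : ℝ) ≤ N / (p - 1) := by
      rw [le_div_iff₀ hp1]
      linarith
    calc (padicValNat p (N.factorial) : ℝ) * Real.log p ≤ N / (p - 1) * Real.log p :=
          mul_le_mul_of_nonneg_right h6 hlogp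
      _ = N * (Real.log p / (p - 1)) := by ring
  have h4 : (N : ℝ) * (Real.log N - 1) ≤
      N * ∑ p ∈ (N.factorial).primeFactors, Real.log p / ((p : ℝ) - 1) := h1.trans h3
  exact le_of_mul_le_mul_left h4 hN0

end Pool.Agent.Lib.MP_50b5e1_nt
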