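import Pool.Agent.Lib.MP_17a322_nt.VP.R6

/-!
# R/RB: Ridout's theorem for integers with moving integral targets
-/

set_option autoImplicit false

namespace Pool.Agent.Lib.MP_50b5e1_nt

open Filter Topology Height
open Pool.Agent.Lib.MP_17a322_nt.VJ (gs FS Pl gs_le gs_sum gs_const_mul gs_log_max FS_log_max FS_const_mul
  FS_sum)
open Pool.Agent.Lib.MP_17a322_nt.VN (oH)
open Pool.Agent.Lib.MP_17a322_nt.VP (R0 R_neg_log_nonneg R_FS_ind)

theorem RB_int_le {v : AbsoluteValue ℚ ℝ} (hv : v ∈ AdmissibleAbsValues.nonarchAbsVal (K := ℚ))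
    (n : ℕ) : v (n : ℚ) ≤ 1 :=
  IsNonarchimedean.apply_natCast_le_one (AdmissibleAbsValues.isNonarchimedean v hv)

/-- a nonarchimedean place is small at one prime only -/
theorem RB_unique {v : AbsoluteValue ℚ ℝ} (hv : v ∈ AdmissibleAbsValues.nonarchAbsVal (K := ℚ))
    {p q : ℕ} (hp : p.Prime) (hq : q.Prime) (h1 : v (p : ℚ) < 1) (h2 : v (q : ℚ) < 1) : p = q := by
  by_contra hne
  have hc : IsCoprime (p : ℤ) (q : ℤ) := by
    rw [Nat.isCoprime_iff_coprime]
    exact (Nat.coprime_primes hp hq).2 hne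
  obtain ⟨a, b, hab⟩ := hc
  have hna := AdmissibleAbsValues.isNonarchimedean v hv
  have h3 : v ((a : ℚ) * p + b * q) = 1 := by
    have : ((a : ℚ) * p + b * q) = 1 := by exact_mod_cast hab
    rw [this, map_one]
  have hz : ∀ n : ℤ, v (n : ℚ) ≤ 1 := fun n => IsNonarchimedean.apply_intCast_le_one hna
  have h4 : v ((a : ℚ) * p + b * q) < 1 := by
    refine lt_of_le_of_lt (hna _ _) (max_lt ?_ ?_)
    · rw [map_mul]
      calc v (a : ℚ) * v (p : ℚ) ≤ 1 * v (p : ℚ) :=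
            mul_le_mul_of_nonneg_right (hz a) (v.nonneg _)
        _ < 1 := by rw [one_mul]; exact h1
    · rw [map_mul]
      calc v (b : ℚ) * v (q : ℚ) ≤ 1 * v (q : ℚ) :=
            mul_le_mul_of_nonneg_right (hz b) (v.nonneg _)
        _ < 1 := by rw [one_mul]; exact h2
  linarith

/-- the archimedean place is at least one at the natural numbers -/
theorem RB_arch {v : AbsoluteValue ℚ ℝ} (hv : v ∈ AdmissibleAbsValues.archAbsVal (K := ℚ))
    {n : ℕ} (hn : 1 ≤ n) : 1 ≤ v (n : ℚ) := by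
  have h1 : NumberField.IsInfinitePlace v := NumberField.mem_multisetInfinitePlace.1 hv
  obtain ⟨φ, rfl⟩ := h1
  rw [NumberField.place_apply, map_natCast, Complex.norm_natCast]
  exact_mod_cast hn

/-- the sum over all places of `- log min (1, v p)` -/
theorem RB_log {p : ℕ} (hp : p.Prime) :
    FS (fun v : AbsoluteValue ℚ ℝ => - Real.log (min 1 (v (p : ℚ)))) ∧
      gs (fun v : AbsoluteValue ℚ ℝ => - Real.log (min 1 (v (p : ℚ)))) = Real.log p := by
  have hp0 : (p : ℚ) ≠ 0 := by exact_mod_cast hp.ne_zero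
  have e : (fun v : AbsoluteValue ℚ ℝ => - Real.log (min 1 (v (p : ℚ)))) =
      fun v : AbsoluteValue ℚ ℝ => Real.log (max 1 (v ((p : ℚ)⁻¹))) := by
    funext v
    have hpos : 0 < v (p : ℚ) := v.pos hp0
    rw [map_inv₀]
    rcases le_total 1 (v (p : ℚ)) with h | h
    · rw [min_eq_left h, max_eq_left (inv_le_one_of_one_le₀ h), Real.log_one, neg_zero]
    · rw [min_eq_right h, max_eq_right ((one_le_inv₀ hpos).2 h), Real.log_inv]
  rw [e]
  refine ⟨FS_log_max _, ?_⟩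
  have : NeZero p := ⟨hp.ne_zero⟩
  rw [gs_log_max, logHeight₁_inv, Rat.logHeight₁_natCast]

/-- Ridout's theorem for integers with moving integral targets of small height. -/
theorem roth_int (S : Finset ℕ) (hS : ∀ p ∈ S, p.Prime) :
    ∃ δ : ℝ, 0 < δ ∧ ∃ N₀ : ℕ, ∀ m : ℕ, N₀ ≤ m → ∀ h e : ℕ → ℕ,
      (∀ p ∈ S, Real.log ((h p : ℝ) + 1) ≤ δ * Real.log m) → (∀ p ∈ S, p ^ e p ∣ m + h p) →
      ∑ p ∈ S, (e p : ℝ) * Real.log p ≤ 3 * Real.log m := by
  classical
  by_contra hcon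
  push Not at hcon
  have hcon' : ∀ n : ℕ, ∃ m : ℕ, n + 2 ≤ m ∧ ∃ h e : ℕ → ℕ,
      (∀ p ∈ S, Real.log ((h p : ℝ) + 1) ≤ (1 / ((n : ℝ) + 1)) * Real.log m) ∧
      (∀ p ∈ S, p ^ e p ∣ m + h p) ∧ 3 * Real.log m < ∑ p ∈ S, (e p : ℝ) * Real.log p := by
    intro n
    obtain ⟨m, h1, h, e, h2, h3, h4⟩ := hcon (1 / ((n : ℝ) + 1)) (by positivity) (n + 2)
    exact ⟨m, h1, h, e, h2, h3, h4⟩
  choose m hm h e hh he hlt using hcon'
  obtain ⟨H, hH⟩ : ∃ H : ℕ → ℝ, ∀ i, H i = Real.log (m i) := ⟨_, fun i => rfl⟩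
  have hmR : ∀ i : ℕ, (i : ℝ) + 2 ≤ m i := fun i => by exact_mod_cast hm i
  have hHT' : Tendsto H atTop atTop := by
    have h1 : Tendsto (fun i : ℕ => Real.log ((i : ℝ) + 2)) atTop atTop :=
      Real.tendsto_log_atTop.comp (tendsto_atTop_add_const_right _ _ tendsto_natCast_atTop_atTop)
    refine tendsto_atTop_mono (fun i => ?_) h1
    rw [hH]
    exact Real.log_le_log (by positivity) (hmR i)
  have hle : (hyperfilter ℕ : Filter ℕ) ≤ atTop := by
    rw [← Nat.cofinite_eq_atTop]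
    exact hyperfilter_le_cofinite
  have hHT : Tendsto H (hyperfilter ℕ : Filter ℕ) atTop := hHT'.mono_left hle
  have hmne : ∀ i, NeZero (m i) := fun i => ⟨by have := hm i; omega⟩
  have hlogt : ∀ i, logHeight₁ ((m i : ℚ)) = H i := fun i => by
    have := hmne i
    rw [hH, Rat.logHeight₁_natCast]
  -- the places
  obtain ⟨Z, hZ⟩ : ∃ Z : ℕ → Set (AbsoluteValue ℚ ℝ), ∀ p, Z p =
      {v | v ∈ AdmissibleAbsValues.nonarchAbsVal (K := ℚ) ∧ v (p : ℚ) < 1} := ⟨_, fun p => rfl⟩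
  have hZf : ∀ p ∈ S, (Z p).Finite := by
    intro p hp
    have hp0 : (p : ℚ) ≠ 0 := by exact_mod_cast (hS p hp).ne_zero
    have h1 : {v : AdmissibleAbsValues.nonarchAbsVal (K := ℚ) | v.val (p : ℚ) ≠ 1}.Finite :=
      AdmissibleAbsValues.hasFiniteMulSupport hp0
    refine (h1.image Subtype.val).subset ?_
    intro v hv
    rw [hZ] at hv
    exact ⟨⟨v, hv.1⟩, hv.2.ne, rfl⟩
  obtain ⟨Sg, hSg⟩ : ∃ Sg : Finset (AbsoluteValue ℚ ℝ), ∀ v, v ∈ Sg ↔ ∃ p ∈ S, v ∈ Z p := by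
    have h1 : (⋃ p ∈ S, Z p).Finite := Set.Finite.biUnion S.finite_toSet fun p hp => hZf p hp
    refine ⟨h1.toFinset, fun v => ?_⟩
    rw [Set.Finite.mem_toFinset, Set.mem_iUnion₂]
    exact ⟨fun ⟨p, h1, h2⟩ => ⟨p, h1, h2⟩, fun ⟨p, h1, h2⟩ => ⟨p, h1, h2⟩⟩
  have hPl : ∀ v ∈ Sg, Pl v := by
    intro v hv
    obtain ⟨p, _, h2⟩ := (hSg v).1 hv
    rw [hZ] at h2
    exact Or.inr h2.1
  obtain ⟨q, hq⟩ : ∃ q : AbsoluteValue ℚ ℝ → ℕ, ∀ v ∈ Sg, q v ∈ S ∧ v ∈ Z (q v) := by
    have h1 : ∀ v, ∃ p, v ∈ Sg → p ∈ S ∧ v ∈ Z p := by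
      intro v
      by_cases hv : v ∈ Sg
      · obtain ⟨p, h1, h2⟩ := (hSg v).1 hv
        exact ⟨p, fun _ => ⟨h1, h2⟩⟩
      · exact ⟨0, fun h => absurd h hv⟩
    choose q hq using h1
    exact ⟨q, hq⟩
  obtain ⟨f, hf⟩ : ∃ f : AbsoluteValue ℚ ℝ → ℕ → ℚ, ∀ v i, f v i = -((h i (q v) : ℕ) : ℚ) :=
    ⟨_, fun v i => rfl⟩
  have hfo : ∀ v ∈ Sg, oH H fun i => logHeight₁ (f v i) := by
    intro v hv δ hδ
    have h1 : ∀ᶠ i : ℕ in (hyperfilter ℕ : Filter ℕ), 1 / δ ≤ (i : ℝ) :=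
      (tendsto_natCast_atTop_atTop.mono_left hle).eventually_ge_atTop (1 / δ)
    filter_upwards [h1] with i hi
    rw [hf, logHeight₁_neg]
    have h2 := hh i (q v) (hq v hv).1
    have h3 : logHeight₁ (((h i (q v) : ℕ)) : ℚ) ≤ Real.log ((h i (q v) : ℝ) + 1) := by
      rcases Nat.eq_zero_or_pos (h i (q v)) with h0 | h0
      · rw [h0]
        simp
      · have : NeZero (h i (q v)) := ⟨h0.ne'⟩
        rw [Rat.logHeight₁_natCast]
        exact Real.log_le_log (by exact_mod_cast h0) (by linarith)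
    have hHi : 0 ≤ Real.log (m i) := Real.log_nonneg (by
      have := hmR i
      have : (0 : ℝ) ≤ i := Nat.cast_nonneg i
      linarith)
    have h4 : 1 / ((i : ℝ) + 1) ≤ δ := by
      rw [div_le_iff₀ (by positivity)]
      rw [div_le_iff₀ hδ] at hi
      nlinarith
    rw [hH]
    exact h3.trans (h2.trans (mul_le_mul_of_nonneg_right h4 hHi))
  have hR := R0 hHT Sg hPl (fun i => (m i : ℚ)) f
    ⟨1, one_pos, Eventually.of_forall fun i => by rw [hlogt, one_mul]⟩
    ⟨1, Eventually.of_forall fun i => by rw [hlogt, one_mul]⟩ hfo (1 / 2) (by norm_num)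
  have hpos : ∀ᶠ i in (hyperfilter ℕ : Filter ℕ), 0 < H i := hHT.eventually_gt_atTop 0
  obtain ⟨i, hi1, hi2⟩ := (hR.and hpos).exists
  rw [hlogt] at hi1
  have hlt' := hlt i
  rw [← hH] at hlt'
  -- the lower bound for the sum over the places
  have hkey : ∑ p ∈ S, (e i p : ℝ) * Real.log p ≤
      gs (fun v : AbsoluteValue ℚ ℝ => if v ∈ Sg then
        - Real.log (min 1 (v ((m i : ℚ) - f v i))) else 0) := by
    have h1 : ∑ p ∈ S, (e i p : ℝ) * Real.log p =
        gs (fun v : AbsoluteValue ℚ ℝ => ∑ p ∈ S, (e i p : ℝ) * (- Real.log (min 1 (v (p : ℚ))))) := by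
      rw [gs_sum S fun p hp => FS_const_mul _ (RB_log (hS p hp)).1]
      refine Finset.sum_congr rfl fun p hp => ?_
      rw [gs_const_mul, (RB_log (hS p hp)).2]
    rw [h1]
    refine gs_le (FS_sum S fun p hp => FS_const_mul _ (RB_log (hS p hp)).1) (R_FS_ind Sg _) ?_
    intro v hv
    rcases hv with hv | hv
    · -- the archimedean place
      have h2 : ∀ p ∈ S, (e i p : ℝ) * (- Real.log (min 1 (v (p : ℚ)))) = 0 := by
        intro p hp
        rw [min_eq_left (RB_arch hv (hS p hp).one_lt.le), Real.log_one, neg_zero, mul_zero]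
      rw [Finset.sum_eq_zero h2]
      split_ifs
      · exact R_neg_log_nonneg (v.nonneg _)
      · exact le_rfl
    · by_cases hvS : v ∈ Sg
      · rw [if_pos hvS]
        obtain ⟨hq1, hq2⟩ := hq v hvS
        rw [hZ] at hq2
        have h2 : ∀ p ∈ S, p ≠ q v → (e i p : ℝ) * (- Real.log (min 1 (v (p : ℚ)))) = 0 := by
          intro p hp hne
          have h3 : v (p : ℚ) = 1 := by
            refine le_antisymm (RB_int_le hv p) ?_
            by_contra hlt1
            exact hne (RB_unique hv (hS p hp) (hS _ hq1) (not_le.1 hlt1) hq2.2)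
          rw [h3, min_self, Real.log_one, neg_zero, mul_zero]
        rw [Finset.sum_eq_single_of_mem (q v) hq1 h2]
        have hdvd := he i (q v) hq1
        obtain ⟨c, hc⟩ := hdvd
        have hc0 : ((m i : ℚ) - f v i) = (q v : ℚ) ^ (e i (q v)) * c := by
          rw [hf, sub_neg_eq_add]
          exact_mod_cast hc
        have hne0 : ((m i : ℚ) - f v i) ≠ 0 := by
          rw [hf, sub_neg_eq_add]
          have := hm i
          have h3 : (0 : ℚ) < (m i : ℚ) := by exact_mod_cast (by omega : 0 < m i)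
          have h4 : (0 : ℚ) ≤ ((h i (q v) : ℕ) : ℚ) := Nat.cast_nonneg _
          linarith
        have hvp : 0 < v (q v : ℚ) := v.pos (by exact_mod_cast (hS _ hq1).ne_zero)
        have h3 : v ((m i : ℚ) - f v i) ≤ v (q v : ℚ) ^ (e i (q v)) := by
          rw [hc0, map_mul, map_pow]
          have := RB_int_le hv c
          have h4 : 0 ≤ v (q v : ℚ) ^ (e i (q v)) := by positivity
          nlinarith
        have h4 : min 1 (v ((m i : ℚ) - f v i)) ≤ v (q v : ℚ) ^ (e i (q v)) :=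
          (min_le_right _ _).trans h3
        have h5 : 0 < min 1 (v ((m i : ℚ) - f v i)) := lt_min one_pos (v.pos hne0)
        have h6 := Real.log_le_log h5 h4
        rw [Real.log_pow] at h6
        rw [min_eq_right hq2.2.le]
        linarith
      · rw [if_neg hvS]
        refine (Finset.sum_eq_zero fun p hp => ?_).le
        have h3 : v (p : ℚ) = 1 := by
          refine le_antisymm (RB_int_le hv p) ?_
          by_contra hlt1
          refine hvS ((hSg v).2 ⟨p, hp, ?_⟩)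
          rw [hZ]
          exact ⟨hv, not_le.1 hlt1⟩
        rw [h3, min_self, Real.log_one, neg_zero, mul_zero]
  have hfin := hkey.trans (le_trans (le_of_eq (by
    refine congrArg gs (funext fun v => ?_)
    split_ifs <;> rfl)) hi1)
  linarith

end Pool.Agent.Lib.MP_50b5e1_nt
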