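import Pool.Agent.Lib.MP_50b5e1_nt.R.RA
import Pool.Agent.Lib.MP_50b5e1_nt.R.RB
import Pool.Agent.Lib.MP_50b5e1_nt.V.VMain

/-!
# R/RC: only finitely many solutions with `k₁ - k₂ ≥ c log m₂`
-/

set_option autoImplicit false

namespace Pool.Agent.Lib.MP_50b5e1_nt

open Filter

/-- the length of the lower block is not much larger than that of the upper block -/
theorem log_k_le {m₁ k₁ m₂ k₂ : ℕ} (h : IsSol m₁ k₁ m₂ k₂) :
    Real.log k₁ ≤ Real.log 5 + Real.log k₂ + Real.log (2 * Real.log m₂) := by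
  have h2 := two_adic h
  have hlt := h.lt
  obtain ⟨a1, a2, a3, a4⟩ := h
  have b1 : Nat.log 2 (m₂ + k₂) ≤ Nat.log 2 m₂ + 1 := by
    calc Nat.log 2 (m₂ + k₂) ≤ Nat.log 2 (m₂ * 2) := Nat.log_mono_right (by omega)
      _ = Nat.log 2 m₂ + 1 := Nat.log_mul_base (by norm_num) (by omega)
  have b2 : Nat.log 2 k₁ ≤ k₁ / 2 := by
    have h3 : 2 ^ Nat.log 2 k₁ ≤ k₁ := Nat.pow_log_le_self 2 (by omega)
    have h4 : ∀ n : ℕ, 2 ≤ n → 2 * n ≤ 2 ^ n := by
      intro n hn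
      induction n, hn using Nat.le_induction with
      | base => norm_num
      | succ n hn ih => rw [pow_succ]; omega
    have h5 : 2 ≤ Nat.log 2 k₁ := by
      calc 2 = Nat.log 2 (2 ^ 2) := (Nat.log_pow (by norm_num) 2).symm
        _ ≤ Nat.log 2 k₁ := Nat.log_mono_right (by omega)
    have := h4 _ h5
    omega
  have b3 : k₁ ≤ 2 * k₂ + 2 * Nat.log 2 m₂ + 3 := by omega
  have b4 : 1 ≤ Nat.log 2 m₂ := by
    calc 1 = Nat.log 2 (2 ^ 1) := (Nat.log_pow (by norm_num) 1).symm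
      _ ≤ Nat.log 2 m₂ := Nat.log_mono_right (by omega)
  have b5 : k₁ ≤ 5 * k₂ * Nat.log 2 m₂ := by
    have : 4 ≤ k₂ := by omega
    nlinarith
  have hm0 : (0 : ℝ) < m₂ := by exact_mod_cast (by omega : 0 < m₂)
  have b6 : (Nat.log 2 m₂ : ℝ) ≤ 2 * Real.log m₂ := by
    have h3 : 2 ^ Nat.log 2 m₂ ≤ m₂ := Nat.pow_log_le_self 2 (by omega)
    have h4 : (2 : ℝ) ^ Nat.log 2 m₂ ≤ m₂ := by exact_mod_cast h3
    have h5 := Real.log_le_log (by positivity) h4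
    rw [Real.log_pow] at h5
    have h6 := Real.log_two_gt_d9
    have h7 : (0 : ℝ) ≤ Nat.log 2 m₂ := Nat.cast_nonneg _
    nlinarith
  have c1 : (0 : ℝ) < k₁ := by exact_mod_cast (by omega : 0 < k₁)
  have c2 : (0 : ℝ) < k₂ := by exact_mod_cast (by omega : 0 < k₂)
  have c3 : (1 : ℝ) ≤ Nat.log 2 m₂ := by exact_mod_cast b4
  have c4 : 0 < 2 * Real.log m₂ := by linarith
  have b7 : (k₁ : ℝ) ≤ 5 * k₂ * (2 * Real.log m₂) := by
    have h3 : (k₁ : ℝ) ≤ 5 * k₂ * (Nat.log 2 m₂ : ℕ) := by exact_mod_cast b5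
    exact h3.trans (mul_le_mul_of_nonneg_left b6 (by positivity))
  have h3 := Real.log_le_log c1 b7
  rw [Real.log_mul (by positivity) c4.ne', Real.log_mul (by norm_num) c2.ne'] at h3
  exact h3

theorem asym (A C δ : ℝ) (hδ : 0 < δ) : ∀ᶠ x : ℝ in atTop,
    A * (Real.log 5 + x ^ (4 / 5 : ℝ) + Real.log (2 * x)) + C < 2 * x ∧
      2 * x ^ (4 / 5 : ℝ) ≤ δ * x := by
  have h1 : (fun x : ℝ => x ^ (4 / 5 : ℝ)) =o[atTop] fun x : ℝ => x := by
    rw [Asymptotics.isLittleO_iff_tendsto' (by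
      filter_upwards [eventually_gt_atTop 0] with x hx h
      exact absurd h hx.ne')]
    have h3 : Tendsto (fun x : ℝ => x ^ (-(1 / 5 : ℝ))) atTop (nhds 0) :=
      tendsto_rpow_neg_atTop (by norm_num)
    refine h3.congr' ?_
    filter_upwards [eventually_gt_atTop 0] with x hx
    rw [eq_div_iff hx.ne']
    nth_rewrite 2 [← Real.rpow_one x]
    rw [← Real.rpow_add hx]
    norm_num
  have h2 : (fun x : ℝ => Real.log (2 * x)) =o[atTop] fun x : ℝ => x := by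
    have h3 : (fun x : ℝ => Real.log (2 * x)) =o[atTop] fun x : ℝ => 2 * x :=
      Real.isLittleO_log_id_atTop.comp_tendsto (tendsto_id.const_mul_atTop (by norm_num))
    exact h3.trans_isBigO (Asymptotics.isBigO_const_mul_self 2 _ _)
  have hc : ∀ K : ℝ, (fun _ : ℝ => K) =o[atTop] fun x : ℝ => x := fun K =>
    Asymptotics.isLittleO_const_id_atTop K
  have h4 : (fun x : ℝ => A * (Real.log 5 + x ^ (4 / 5 : ℝ) + Real.log (2 * x)) + C) =o[atTop]
      fun x : ℝ => x :=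
    ((((hc _).add h1).add h2).const_mul_left A).add (hc C)
  filter_upwards [h4.bound (by norm_num : (0 : ℝ) < 1), h1.bound (half_pos hδ),
    eventually_gt_atTop 0] with x g1 g2 g3
  rw [Real.norm_eq_abs, Real.norm_eq_abs, abs_of_pos g3] at g1 g2
  constructor
  · have := le_abs_self (A * (Real.log 5 + x ^ (4 / 5 : ℝ) + Real.log (2 * x)) + C)
    linarith
  · have := le_abs_self (x ^ (4 / 5 : ℝ))
    linarith

theorem bounded_log (c : ℝ) (hc : 0 < c) : ∃ B : ℕ, ∀ m₁ k₁ m₂ k₂ : ℕ, IsSol m₁ k₁ m₂ k₂ →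
    c * Real.log m₂ ≤ (k₁ : ℝ) - k₂ → m₂ < B := by
  obtain ⟨N, hN1, hN⟩ : ∃ N : ℕ, 1 ≤ N ∧ 5 ≤ c * (Real.log N - 1) := by
    obtain ⟨N, hN⟩ := exists_nat_ge (Real.exp (1 + 5 / c))
    have h0 : (0 : ℝ) < N := lt_of_lt_of_le (Real.exp_pos _) hN
    refine ⟨N, by exact_mod_cast h0, ?_⟩
    have h1 : 1 + 5 / c ≤ Real.log N := by
      rw [Real.le_log_iff_exp_le h0]
      exact hN
    have h2 : c * (5 / c) = 5 := by field_simp
    nlinarith
  obtain ⟨S, hS⟩ : ∃ S, S = (N.factorial).primeFactors := ⟨_, rfl⟩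
  have hSp : ∀ p ∈ S, p.Prime := by
    intro p hp
    rw [hS] at hp
    exact Nat.prime_of_mem_primeFactors hp
  have hsum := prime_sum_large N hN1
  rw [← hS] at hsum
  obtain ⟨δ, hδ, N₀, hroth⟩ := roth_int S hSp
  obtain ⟨B₁, hB₁⟩ := bounded_sol' (5 / 4) (by norm_num) (by norm_num)
  have has := asym (S.card) (∑ p ∈ S, Real.log p) δ hδ
  have htend : Tendsto (fun n : ℕ => Real.log (n : ℝ)) atTop atTop :=
    Real.tendsto_log_atTop.comp tendsto_natCast_atTop_atTop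
  obtain ⟨B₂, hB₂⟩ := eventually_atTop.1 (htend.eventually has)
  refine ⟨max (max B₁ B₂) N₀, ?_⟩
  intro m₁ k₁ m₂ k₂ hsol hk
  by_contra hcon
  push Not at hcon
  have hm1 : B₁ ≤ m₂ := ((le_max_left _ _).trans (le_max_left _ _)).trans hcon
  have hm2 : B₂ ≤ m₂ := ((le_max_right _ _).trans (le_max_left _ _)).trans hcon
  have hm3 : N₀ ≤ m₂ := (le_max_right _ _).trans hcon
  obtain ⟨x, hx⟩ : ∃ x, x = Real.log m₂ := ⟨_, rfl⟩
  obtain ⟨g1, g2⟩ := hB₂ m₂ hm2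
  rw [← hx] at g1 g2 hk
  have hlt := hsol.lt
  have h3 : 3 < k₂ := hsol.2.1
  have hk4 : (4 : ℝ) ≤ k₂ := by exact_mod_cast (by omega : 4 ≤ k₂)
  have hlk : 0 ≤ Real.log k₂ := Real.log_nonneg (by linarith)
  have hm4 : (1 : ℝ) ≤ m₂ := by
    have : 1 ≤ m₂ := by
      obtain ⟨a1, a2, a3, a4⟩ := hsol
      omega
    exact_mod_cast this
  have hx0 : 0 ≤ x := by
    rw [hx]
    exact Real.log_nonneg hm4
  -- `log k₂ ≤ x ^ (4/5)`
  have h4 : Real.log k₂ ≤ x ^ (4 / 5 : ℝ) := by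
    have h5 : (Real.log k₂) ^ (5 / 4 : ℝ) ≤ x := by
      by_contra h6
      have := hB₁ m₁ k₁ m₂ k₂ hsol (by
        rw [← hx]
        exact (not_le.1 h6).le)
      omega
    have h6 := Real.rpow_le_rpow (by positivity) h5 (by norm_num : (0 : ℝ) ≤ 4 / 5)
    rw [← Real.rpow_mul hlk] at h6
    norm_num at h6
    exact h6
  have h5 : Real.log k₁ ≤ Real.log 5 + x ^ (4 / 5 : ℝ) + Real.log (2 * x) := by
    have := log_k_le hsol
    rw [← hx] at this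
    linarith
  -- the elements of the upper block
  have hel : ∀ p, ∃ h, p ∈ S → 1 ≤ h ∧ h ≤ k₂ ∧ p ^ ((m₂ + k₂).choose k₂).factorization p ∣ m₂ + h := by
    intro p
    by_cases hp : p ∈ S
    · obtain ⟨h, h6⟩ := carry_elem (m := m₂) (hSp p hp) (by omega : 1 ≤ k₂)
      exact ⟨h, fun _ => h6⟩
    · exact ⟨0, fun h => absurd h hp⟩
  choose h hh using hel
  have h6 := hroth m₂ hm3 h (fun p => ((m₂ + k₂).choose k₂).factorization p) (by
    intro p hp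
    have h7 : ((h p : ℕ) : ℝ) ≤ k₂ := by exact_mod_cast (hh p hp).2.1
    have h8 : Real.log ((h p : ℝ) + 1) ≤ Real.log ((k₂ : ℝ) ^ 2) :=
      Real.log_le_log (by positivity) (by nlinarith)
    rw [Real.log_pow] at h8
    push_cast at h8
    rw [← hx]
    linarith) (fun p hp => (hh p hp).2.2)
  have h7 : ∑ p ∈ S, (((k₁ : ℝ) - k₂) * (Real.log p / (p - 1)) - Real.log k₁ - Real.log p) ≤
      ∑ p ∈ S, (((m₂ + k₂).choose k₂).factorization p : ℝ) * Real.log p :=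
    Finset.sum_le_sum fun p hp => val_lower (hSp p hp) hsol
  rw [Finset.sum_sub_distrib, Finset.sum_sub_distrib, ← Finset.mul_sum, Finset.sum_const,
    nsmul_eq_mul] at h7
  have hj : 0 ≤ (k₁ : ℝ) - k₂ := by
    have : (k₂ : ℝ) ≤ k₁ := by exact_mod_cast hlt.le
    linarith
  have h8 : ((k₁ : ℝ) - k₂) * (Real.log N - 1) ≤
      ((k₁ : ℝ) - k₂) * ∑ p ∈ S, Real.log p / ((p : ℝ) - 1) := mul_le_mul_of_nonneg_left hsum hj
  have h9 : 5 * x ≤ ((k₁ : ℝ) - k₂) * (Real.log N - 1) := by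
    have hN' : 0 ≤ Real.log N - 1 := by
      by_contra h10
      nlinarith [not_le.1 h10]
    calc 5 * x ≤ (c * (Real.log N - 1)) * x := mul_le_mul_of_nonneg_right hN hx0
      _ = (c * x) * (Real.log N - 1) := by ring
      _ ≤ ((k₁ : ℝ) - k₂) * (Real.log N - 1) := mul_le_mul_of_nonneg_right hk hN'
  have h10 : (S.card : ℝ) * Real.log k₁ ≤
      S.card * (Real.log 5 + x ^ (4 / 5 : ℝ) + Real.log (2 * x)) :=
    mul_le_mul_of_nonneg_left h5 (Nat.cast_nonneg _)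
  rw [← hx] at h6
  linarith

/-- For every `c > 0` only finitely many solutions have `k₁ - k₂ ≥ c log m₂`. -/
theorem finite_log (c : ℝ) (hc : 0 < c) :
    {q : ℕ × ℕ × ℕ × ℕ | IsSol q.1 q.2.1 q.2.2.1 q.2.2.2 ∧
      c * Real.log (q.2.2.1 : ℝ) ≤ (q.2.1 : ℝ) - q.2.2.2}.Finite := by
  obtain ⟨B, hB⟩ := bounded_log c hc
  have hsub : {q : ℕ × ℕ × ℕ × ℕ | IsSol q.1 q.2.1 q.2.2.1 q.2.2.2 ∧
      c * Real.log (q.2.2.1 : ℝ) ≤ (q.2.1 : ℝ) - q.2.2.2} ⊆
      (Set.Iic B) ×ˢ (Set.Iic B) ×ˢ (Set.Iic B) ×ˢ (Set.Iic B) := by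
    rintro ⟨m₁, k₁, m₂, k₂⟩ ⟨hs, hq⟩
    simp only at hs hq
    have hlt := hs.lt
    have hm := hB m₁ k₁ m₂ k₂ hs hq
    obtain ⟨s1, s2, s3, s4⟩ := id hs
    refine ⟨?_, ?_, ?_, ?_⟩ <;> simp only [Set.mem_Iic] <;> omega
  refine Set.Finite.subset ?_ hsub
  exact (Set.finite_Iic _).prod ((Set.finite_Iic _).prod ((Set.finite_Iic _).prod (Set.finite_Iic _)))

end Pool.Agent.Lib.MP_50b5e1_nt
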